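import Pool.Agent.H58.JU.Targets

/-! MP_6a7a6f_gt, jun_modules, row FIL: from the left homotopy inverse to the filling radius. -/

set_option autoImplicit false

namespace Pool.Agent.H26.JU

open Pool.Agent.H58.JU Pool.Agent.H59 Pool.Agent.H48.FR Pool.Agent.H58.FL
open scoped RealInnerProductSpace Quaternion

theorem pf_comp' {X Y Z : Type} [TopologicalSpace X] [TopologicalSpace Y] [TopologicalSpace Z]
    (n : ℕ) (f : C(X, Y)) (g : C(Y, Z)) (z : Ch ℤ n X) :
    pf ℤ n (g.comp f) z = pf ℤ n g (pf ℤ n f z) := by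
  induction z using Finsupp.induction_linear with
  | zero => simp
  | add a b ha hb => rw [map_add, map_add, map_add, ha, hb]
  | single s c => rw [pf_single, pf_single, pf_single, ContinuousMap.comp_assoc]

theorem pf_id' {X : Type} [TopologicalSpace X] (n : ℕ) (z : Ch ℤ n X) :
    pf ℤ n (ContinuousMap.id X) z = z := by
  induction z using Finsupp.induction_linear with
  | zero => simp
  | add a b ha hb => rw [map_add, ha, hb]
  | single s c => rw [pf_single, ContinuousMap.id_comp]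

theorem pf_FIL (hRET : T_RET) (hHTP : T_HTP) (hKIL : T_KIL) : T_FIL := by
  intro M _ _ _ _ ρ d hUM hdia hVan hne
  have hne' : ({ε : ℝ | ∃ hε : 0 < ε, Kills (d + 1) (kc M ε hε)} : Set ℝ).Nonempty := hne
  unfold FillR
  refine le_csInf hne' ?_
  rintro ε ⟨hε, hk⟩
  by_contra hlt
  have hlt' : 2 * ε < ρ := by linarith [not_le.1 hlt]
  obtain ⟨r, hr⟩ := hRET M ρ hUM hdia ε hε hlt'
  refine hVan fun z hz => ?_
  have hk1 : KillsN 1 (d + 1) (kc M ε hε) := by
    unfold KillsN
    unfold Kills at hk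
    rw [hk, smul_zero]
  have hz' : bd ℤ (d + 1) M z = 0 := hz
  obtain ⟨b, hb⟩ := hKIL M (UE M ε) (kc M ε hε) d 1 hk1 z hz'
  obtain ⟨b', hb'⟩ := hHTP M M (r.comp (kc M ε hε)) (ContinuousMap.id M) hr (d + 2) z hz
  refine ⟨pf ℤ (d + 3) r b - b', ?_⟩
  rw [map_sub, hb', pf_id', pf_comp', bd_pf, hb, one_smul]
  abel

end Pool.Agent.H26.JU
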