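import Pool.Agent.H58.JU.Targets

/-! MP_6a7a6f_gt, jun_modules, row PHI: a finite partition of unity on the neighbourhood. -/

set_option autoImplicit false

namespace Pool.Agent.H26.JU

open Pool.Agent.H58.JU Pool.Agent.H59 Pool.Agent.H48.FR Pool.Agent.H58.FL
open scoped RealInnerProductSpace Quaternion

theorem pf_PHI : T_PHI := by
  intro M _ _ _ _ ε δ hε hδ
  obtain ⟨t, -, htf, ht⟩ := finite_cover_balls_of_compact (isCompact_univ (X := M)) hδ
  have hcov : ∀ m : M, ∃ y ∈ t, dist m y < δ := by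
    intro m
    have := ht (Set.mem_univ m)
    simpa [Metric.mem_ball] using this
  haveI : Fintype t := htf.fintype
  obtain ⟨N, ⟨e⟩⟩ : ∃ N : ℕ, Nonempty (Fin N ≃ t) :=
    ⟨Fintype.card t, ⟨(Fintype.equivFin t).symm⟩⟩
  obtain ⟨x, hx⟩ : ∃ x : Fin N → M, ∀ i, x i = (e i : M) := ⟨fun i => (e i : M), fun _ => rfl⟩
  obtain ⟨ψ, hψ⟩ : ∃ ψ : Fin N → UE M ε → ℝ,
      ∀ i f, ψ i f = max 0 (ε + δ - dist f.1 (kur M (x i))) :=
    ⟨fun i f => max 0 (ε + δ - dist f.1 (kur M (x i))), fun _ _ => rfl⟩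
  have hψc : ∀ i, Continuous (ψ i) := by
    intro i
    have h1 : ψ i = fun f => max 0 (ε + δ - dist f.1 (kur M (x i))) := funext (hψ i)
    rw [h1]
    exact continuous_const.max (continuous_const.sub (continuous_subtype_val.dist continuous_const))
  have hψ0 : ∀ i f, 0 ≤ ψ i f := fun i f => by rw [hψ]; exact le_max_left _ _
  have hpos : ∀ f, 0 < ∑ i, ψ i f := by
    intro f
    have hf : f.1 ∈ Metric.thickening ε (Set.range (kur M)) := f.2
    obtain ⟨_, ⟨m, rfl⟩, hm⟩ := Metric.mem_thickening_iff.1 hf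
    obtain ⟨y, hy, hmy⟩ := hcov m
    have hi : x (e.symm ⟨y, hy⟩) = y := by rw [hx, Equiv.apply_symm_apply]
    refine lt_of_lt_of_le ?_ (Finset.single_le_sum (f := fun i => ψ i f)
      (fun i _ => hψ0 i f) (Finset.mem_univ (e.symm ⟨y, hy⟩)))
    show 0 < ψ (e.symm ⟨y, hy⟩) f
    rw [hψ, hi]
    refine lt_max_of_lt_right ?_
    have h1 := dist_triangle f.1 (kur M m) (kur M y)
    have h2 := dist_kur_le m y
    linarith
  refine ⟨N, x, fun f i => ψ i f / ∑ j, ψ j f, ?_, ?_, ?_⟩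
  · refine continuous_pi fun i => ?_
    exact (hψc i).div (continuous_finsetSum _ fun j _ => hψc j) fun f => (hpos f).ne'
  · intro f
    refine ⟨fun i => div_nonneg (hψ0 i f) (hpos f).le, ?_⟩
    rw [← Finset.sum_div]
    exact div_self (hpos f).ne'
  · intro f i hi
    have h1 : 0 < ψ i f := by
      rcases (hψ0 i f).eq_or_lt with h | h
      · have hi' : 0 < ψ i f / ∑ j, ψ j f := hi
        rw [← h, zero_div] at hi'
        exact absurd hi' (lt_irrefl _)
      · exact h
    rw [hψ] at h1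
    rcases lt_max_iff.1 h1 with h | h
    · exact absurd h (lt_irrefl _)
    · linarith

end Pool.Agent.H26.JU
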